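import Pool.Agent.Helper30.SY.St2

/-! Project SY, module FIN: the final count. -/

set_option autoImplicit false

namespace Pool.Agent.Helper74.SY

open Finset Pool.Agent.Helper30.SY

private lemma circ_lt {n : ℕ} (i j : Fin n) (h : i.val < j.val) :
    circ i j ↔ 2 * (j.val - i.val) < n := by
  unfold circ
  have hj := j.isLt
  have e : (n + j.val - i.val) % n = j.val - i.val := by
    have h' : n + j.val - i.val = (j.val - i.val) + n := by omega
    rw [h', Nat.add_mod_right, Nat.mod_eq_of_lt (by omega)]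
  rw [e]
  constructor
  · rintro ⟨_, h2⟩
    exact h2
  · intro h2
    exact ⟨by omega, h2⟩

private lemma circ_gt {n : ℕ} (i j : Fin n) (h : j.val < i.val) :
    circ i j ↔ n < 2 * (i.val - j.val) := by
  unfold circ
  have hi := i.isLt
  have e : (n + j.val - i.val) % n = n - (i.val - j.val) := by
    have h' : n + j.val - i.val = n - (i.val - j.val) := by omega
    rw [h', Nat.mod_eq_of_lt (by omega)]
  rw [e]
  constructor
  · rintro ⟨_, h2⟩
    omega
  · intro h2
    exact ⟨by omega, by omega⟩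

private lemma rk_lt {n : ℕ} (S : Finset (Fin n)) (ρ : Fin n → ℕ) (x : Fin n) (hx : x ∈ S) :
    rk S ρ x < S.card := by
  unfold rk
  apply Finset.card_lt_card
  rw [Finset.ssubset_iff_of_subset (Finset.filter_subset _ _)]
  exact ⟨x, hx, by simp⟩

private lemma rk_mono {n : ℕ} (S : Finset (Fin n)) (ρ : Fin n → ℕ) (x y : Fin n) (hx : x ∈ S)
    (h : ρ x < ρ y) : rk S ρ x < rk S ρ y := by
  unfold rk
  apply Finset.card_lt_card
  rw [Finset.ssubset_iff_of_subset]
  · exact ⟨x, by simp [hx, h], by simp⟩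
  · intro z hz
    simp only [mem_filter] at hz ⊢
    exact ⟨hz.1, hz.2.trans h⟩

private lemma same {n : ℕ} (s : Fin n → Fin n → ℤ) (hs : Circ s) (S : Finset (Fin n))
    (ρ : Fin n → ℕ) (π : Equiv.Perm (Fin n)) (c : ℕ)
    (hπ : ∀ x ∈ S, (π x).val = c + rk S ρ x)
    (hinj : ∀ x ∈ S, ∀ y ∈ S, ρ x = ρ y → x = y) (hc : 2 * S.card ≤ n) (x y : Fin n)
    (hx : x ∈ S) (hy : y ∈ S) (hxy : x ≠ y) (hbad : ¬ (s x y = 1 ↔ circ (π x) (π y))) :
    (ρ x < ρ y ∧ s x y ≠ 1) ∨ (ρ y < ρ x ∧ s y x ≠ 1) := by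
  have hne : ρ x ≠ ρ y := fun h => hxy (hinj x hx y hy h)
  have ex := hπ x hx
  have ey := hπ y hy
  have lx := rk_lt S ρ x hx
  have ly := rk_lt S ρ y hy
  rcases lt_or_gt_of_ne hne with h | h
  · left
    refine ⟨h, fun h1 => hbad ?_⟩
    have hr := rk_mono S ρ x y hx h
    have : circ (π x) (π y) := by
      rw [circ_lt (π x) (π y) (by omega)]
      omega
    exact ⟨fun _ => this, fun _ => h1⟩
  · right
    refine ⟨h, fun h1 => hbad ?_⟩
    have hr := rk_mono S ρ y x hy h
    have hn : ¬ circ (π x) (π y) := by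
      rw [circ_gt (π x) (π y) (by omega)]
      omega
    have h2 : s x y ≠ 1 := by
      rw [hs.sk x y, h1]
      norm_num
    exact ⟨fun h3 => absurd h3 h2, fun h3 => absurd h3 hn⟩

private lemma arith (D O B1 B2 C1 C2 n p q : ℕ) (κ ε' : ℝ) (hO : O + (p + q) = n)
    (hPQ : (n : ℝ) - 1 ≤ p + q + κ * n) (hb1 : (B1 : ℝ) ≤ κ * (n : ℝ) ^ 2)
    (hb2 : (B2 : ℝ) ≤ κ * (n : ℝ) ^ 2) (h1 : (C1 : ℝ) ≤ ε' * (n : ℝ) ^ 2)
    (h2 : (C2 : ℝ) ≤ ε' * (n : ℝ) ^ 2)
    (h : D ≤ O * n + n * O + (B1 + B1) + (B2 + B2) + (C1 + C2)) :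
    (D : ℝ) ≤ (6 * κ + 2 * ε') * (n : ℝ) ^ 2 + 2 * n := by
  have hO' : (O : ℝ) + (p + q) = n := by exact_mod_cast hO
  have hr : (D : ℝ) ≤ O * n + n * O + (B1 + B1) + (B2 + B2) + (C1 + C2) := by exact_mod_cast h
  have hn0 : (0 : ℝ) ≤ n := Nat.cast_nonneg n
  have hOr : (O : ℝ) ≤ 1 + κ * n := by linarith
  have hOn : (O : ℝ) * n ≤ (1 + κ * n) * n := mul_le_mul_of_nonneg_right hOr hn0
  have e : (1 + κ * n) * (n : ℝ) = n + κ * (n : ℝ) ^ 2 := by ring
  have e2 : (n : ℝ) * O = O * n := by ring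
  linarith

theorem hFIN : StFIN := by
  intro hPRM n s v ρP ρQ κ ε' hs hκ hε hPQ hcard hinjP hinjQ hbP hbQ h1 h2
  have hvv : s v v = 0 := by
    have := hs.sk v v
    omega
  have hvP : v ∉ ON s v := by
    simp [ON, hvv]
  have hvQ : v ∉ IN s v := by
    simp [IN, hvv]
  have hdis : Disjoint (ON s v) (IN s v) := by
    rw [Finset.disjoint_left]
    intro x hx hx'
    simp only [ON, IN, mem_filter, mem_univ, true_and] at hx hx'
    have := hs.sk v x
    omega
  obtain ⟨π, -, hπP, hπQ⟩ := hPRM n v (ON s v) (IN s v) ρP ρQ hvP hvQ hdis hinjP hinjQ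
  refine ⟨π, ?_⟩
  have hun : (ON s v ∪ IN s v).card = (ON s v).card + (IN s v).card :=
    Finset.card_union_of_disjoint hdis
  have hle : (ON s v ∪ IN s v).card ≤ n := by
    have := Finset.card_le_univ (ON s v ∪ IN s v)
    simpa using this
  have hO : ((ON s v ∪ IN s v)ᶜ).card + ((ON s v).card + (IN s v).card) = n := by
    have := Finset.card_compl_add_card (ON s v ∪ IN s v)
    rw [hun] at this
    simpa using this
  have h2P : 2 * (ON s v).card ≤ n := by omega
  have h2Q : 2 * (IN s v).card ≤ n := by omega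
  set O : Finset (Fin n) := (ON s v ∪ IN s v)ᶜ with hOdef
  set BP := ((ON s v) ×ˢ (ON s v)).filter (fun p => ρP p.1 < ρP p.2 ∧ s p.1 p.2 ≠ 1) with hBP
  set BQ := ((IN s v) ×ˢ (IN s v)).filter (fun p => ρQ p.1 < ρQ p.2 ∧ s p.1 p.2 ≠ 1) with hBQ
  set C1 := ((ON s v) ×ˢ (IN s v)).filter (fun p => ¬ (s p.1 p.2 = 1 ↔
      2 * ((ON s v).card + rk (IN s v) ρQ p.2) < n + 2 * rk (ON s v) ρP p.1)) with hC1
  set C2 := ((ON s v) ×ˢ (IN s v)).filter (fun p => ¬ (s p.2 p.1 = 1 ↔
      n + 2 * rk (ON s v) ρP p.1 < 2 * ((ON s v).card + rk (IN s v) ρQ p.2))) with hC2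
  have cover : (univ.filter fun p : Fin n × Fin n => p.1 ≠ p.2 ∧
      ¬ (s p.1 p.2 = 1 ↔ circ (π p.1) (π p.2))) ⊆
      (O ×ˢ (univ : Finset (Fin n))) ∪ ((univ : Finset (Fin n)) ×ˢ O) ∪
        (BP ∪ BP.image Prod.swap) ∪ (BQ ∪ BQ.image Prod.swap) ∪ (C1 ∪ C2.image Prod.swap) := by
    rintro ⟨x, y⟩ hp
    simp only [mem_filter, mem_univ, true_and] at hp
    obtain ⟨hxy, hbad⟩ := hp
    by_cases hxO : x ∈ O
    · simp [hxO]
    by_cases hyO : y ∈ O
    · simp [hyO]
    have hx' : x ∈ ON s v ∨ x ∈ IN s v := by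
      by_contra hh
      exact hxO (by rw [hOdef]; simpa [not_or] using hh)
    have hy' : y ∈ ON s v ∨ y ∈ IN s v := by
      by_contra hh
      exact hyO (by rw [hOdef]; simpa [not_or] using hh)
    rcases hx' with hx | hx <;> rcases hy' with hy | hy
    · have hh := same s hs (ON s v) ρP π 1 hπP hinjP h2P x y hx hy hxy hbad
      rcases hh with hh | hh
      · have : (x, y) ∈ BP := by
          rw [hBP, mem_filter, mem_product]
          exact ⟨⟨hx, hy⟩, hh⟩
        simp only [mem_union]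
        exact Or.inl (Or.inl (Or.inr (Or.inl this)))
      · have : (x, y) ∈ BP.image Prod.swap := by
          rw [mem_image]
          refine ⟨(y, x), ?_, rfl⟩
          rw [hBP, mem_filter, mem_product]
          exact ⟨⟨hy, hx⟩, hh⟩
        simp only [mem_union]
        exact Or.inl (Or.inl (Or.inr (Or.inr this)))
    · have ex := hπP x hx
      have ey := hπQ y hy
      have lx := rk_lt (ON s v) ρP x hx
      have ly := rk_lt (IN s v) ρQ y hy
      have e1 : circ (π x) (π y) ↔
          2 * ((ON s v).card + rk (IN s v) ρQ y) < n + 2 * rk (ON s v) ρP x := by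
        rw [circ_lt (π x) (π y) (by omega)]
        omega
      have : (x, y) ∈ C1 := by
        rw [hC1, mem_filter, mem_product]
        refine ⟨⟨hx, hy⟩, ?_⟩
        rw [e1] at hbad
        exact hbad
      simp only [mem_union]
      exact Or.inr (Or.inl this)
    · have ex := hπQ x hx
      have ey := hπP y hy
      have lx := rk_lt (IN s v) ρQ x hx
      have ly := rk_lt (ON s v) ρP y hy
      have e1 : circ (π x) (π y) ↔
          n + 2 * rk (ON s v) ρP y < 2 * ((ON s v).card + rk (IN s v) ρQ x) := by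
        rw [circ_gt (π x) (π y) (by omega)]
        omega
      have : (x, y) ∈ C2.image Prod.swap := by
        rw [mem_image]
        refine ⟨(y, x), ?_, rfl⟩
        rw [hC2, mem_filter, mem_product]
        refine ⟨⟨hy, hx⟩, ?_⟩
        rw [e1] at hbad
        exact hbad
      simp only [mem_union]
      exact Or.inr (Or.inr this)
    · have hh := same s hs (IN s v) ρQ π (1 + (ON s v).card) hπQ hinjQ h2Q x y hx hy hxy hbad
      rcases hh with hh | hh
      · have : (x, y) ∈ BQ := by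
          rw [hBQ, mem_filter, mem_product]
          exact ⟨⟨hx, hy⟩, hh⟩
        simp only [mem_union]
        exact Or.inl (Or.inr (Or.inl this))
      · have : (x, y) ∈ BQ.image Prod.swap := by
          rw [mem_image]
          refine ⟨(y, x), ?_, rfl⟩
          rw [hBQ, mem_filter, mem_product]
          exact ⟨⟨hy, hx⟩, hh⟩
        simp only [mem_union]
        exact Or.inl (Or.inr (Or.inr this))
  have hcount : (univ.filter fun p : Fin n × Fin n => p.1 ≠ p.2 ∧
      ¬ (s p.1 p.2 = 1 ↔ circ (π p.1) (π p.2))).card ≤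
      O.card * n + n * O.card + (BP.card + BP.card) + (BQ.card + BQ.card) +
        (C1.card + C2.card) := by
    refine (Finset.card_le_card cover).trans ?_
    refine (Finset.card_union_le _ _).trans ?_
    refine add_le_add ?_ ?_
    · refine (Finset.card_union_le _ _).trans ?_
      refine add_le_add ?_ ?_
      · refine (Finset.card_union_le _ _).trans ?_
        refine add_le_add ?_ ?_
        · refine (Finset.card_union_le _ _).trans ?_
          simp [Finset.card_product]
        · exact (Finset.card_union_le _ _).trans (Nat.add_le_add_left Finset.card_image_le _)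
      · exact (Finset.card_union_le _ _).trans (Nat.add_le_add_left Finset.card_image_le _)
    · exact (Finset.card_union_le _ _).trans (Nat.add_le_add_left Finset.card_image_le _)
  exact arith _ O.card BP.card BQ.card C1.card C2.card n _ _ κ ε' hO hPQ hbP hbQ h1 h2 hcount

end Pool.Agent.Helper74.SY
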